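import Pool.Agent.H21.EK.Top
import Pool.Agent.H36.EK.AX

/-!
# EK, block C: the two contractions of the Čech directions of the surface

`F1X = (e21 ⊗ 1) ⊗ 1`, `F2X = (ε ⊗ e21) ⊗ 1`; `Kills W lam`: the functional `lam` vanishes on the sections over the
four partial overlaps.
-/

set_option autoImplicit false
set_option linter.unusedSectionVars false

open NC
open scoped Kronecker

noncomputable section

namespace EK

open H36.NX

variable {q : ℕ} {k : Type} [Field k] {R : Type} [CommRing R] [Algebra k R]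
  {K : Type} [CommRing K] [Algebra k K]

/-- the matrix `e_21` -/
def e21 : Matrix (Fin 2) (Fin 2) k := !![0, 0; 1, 0]

theorem e21_ne {c d : Fin 2} (h : (e21 (k := k)) c d ≠ 0) : c = 1 ∧ d = 0 := by
  fin_cases c <;> fin_cases d <;> simp [e21] at h ⊢

theorem e12_e21 : (e12 (k := k)) * e21 + e21 * e12 = 1 := by
  ext i j
  fin_cases i <;> fin_cases j <;> simp [e12, e21]

theorem eps_e21 : (epsM (k := k)) * e21 + e21 * epsM = 0 := by
  ext i j
  fin_cases i <;> fin_cases j <;> simp [epsM, e21]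

theorem e12_eps' : (e12 (k := k)) * epsM + epsM * e12 = 0 := by
  ext i j
  fin_cases i <;> fin_cases j <;> simp [epsM, e12]

theorem eps_eps : (epsM (k := k)) * epsM = 1 := by
  ext i j
  fin_cases i <;> fin_cases j <;> simp [epsM, Matrix.mul_apply, Fin.sum_univ_two]

theorem e21_e21 : (e21 (k := k)) * e21 = 0 := by
  ext i j
  fin_cases i <;> fin_cases j <;> simp [e21, Matrix.mul_apply, Fin.sum_univ_two]

namespace SurR

variable {C : CurR q k R} (W : SurR C K)

/-- the contraction of the first direction -/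
def F1X : Matrix IX IX k :=
  ((e21 (k := k)) ⊗ₖ (1 : Matrix (Fin 2) (Fin 2) k)) ⊗ₖ (1 : Matrix (Fin 2 × Fin 2) (Fin 2 × Fin 2) k)

/-- the contraction of the second direction -/
def F2X : Matrix IX IX k :=
  ((epsM (k := k)) ⊗ₖ (e21 (k := k))) ⊗ₖ (1 : Matrix (Fin 2 × Fin 2) (Fin 2 × Fin 2) k)

theorem F1X_apply (i j : IX) : (F1X (k := k)) i j =
    ((e21 (k := k)) i.1.1 j.1.1 * (1 : Matrix (Fin 2) (Fin 2) k) i.1.2 j.1.2) *
        (1 : Matrix (Fin 2 × Fin 2) (Fin 2 × Fin 2) k) i.2 j.2 := rfl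

theorem F2X_apply (i j : IX) : (F2X (k := k)) i j =
    ((epsM (k := k)) i.1.1 j.1.1 * (e21 (k := k)) i.1.2 j.1.2) *
        (1 : Matrix (Fin 2 × Fin 2) (Fin 2 × Fin 2) k) i.2 j.2 := rfl

theorem F1X_ne {i j : IX} (h : (F1X (k := k)) i j ≠ 0) :
    i.2 = j.2 ∧ i.1.1 = 1 ∧ j.1.1 = 0 ∧ i.1.2 = j.1.2 := by
  rw [F1X_apply] at h
  have h1 := left_ne_zero_of_mul h
  have h3 := e21_ne (left_ne_zero_of_mul h1)
  exact ⟨CurR.one_ne (right_ne_zero_of_mul h), h3.1, h3.2, CurR.one_ne (right_ne_zero_of_mul h1)⟩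

theorem F2X_ne {i j : IX} (h : (F2X (k := k)) i j ≠ 0) :
    i.2 = j.2 ∧ i.1.2 = 1 ∧ j.1.2 = 0 ∧ i.1.1 = j.1.1 := by
  rw [F2X_apply] at h
  have h1 := left_ne_zero_of_mul h
  have h3 := e21_ne (right_ne_zero_of_mul h1)
  exact ⟨CurR.one_ne (right_ne_zero_of_mul h), h3.1, h3.2, CurR.epsM_ne (left_ne_zero_of_mul h1)⟩

theorem F1X_sq : (F1X (k := k)) * F1X = 0 := by
  rw [F1X, ← Matrix.mul_kronecker_mul, ← Matrix.mul_kronecker_mul, e21_e21, Matrix.zero_kronecker,
    Matrix.zero_kronecker]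

theorem F2X_sq : (F2X (k := k)) * F2X = 0 := by
  rw [F2X, ← Matrix.mul_kronecker_mul, ← Matrix.mul_kronecker_mul, e21_e21, Matrix.kronecker_zero,
    Matrix.zero_kronecker]

theorem eX_F1X : (eX (k := k)) * F1X + F1X * eX = 1 := by
  have h : ((e12 (k := k)) ⊗ₖ (1 : Matrix (Fin 2) (Fin 2) k) + (epsM (k := k)) ⊗ₖ (e12 (k := k))) *
      ((e21 (k := k)) ⊗ₖ (1 : Matrix (Fin 2) (Fin 2) k)) +
      ((e21 (k := k)) ⊗ₖ (1 : Matrix (Fin 2) (Fin 2) k)) *
        ((e12 (k := k)) ⊗ₖ (1 : Matrix (Fin 2) (Fin 2) k) + (epsM (k := k)) ⊗ₖ (e12 (k := k))) = 1 := by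
    rw [mul_add, add_mul, ← Matrix.mul_kronecker_mul, ← Matrix.mul_kronecker_mul,
      ← Matrix.mul_kronecker_mul, ← Matrix.mul_kronecker_mul, one_mul, one_mul, mul_one]
    have e1 : (e12 * e21) ⊗ₖ (1 : Matrix (Fin 2) (Fin 2) k) + (epsM * e21) ⊗ₖ (e12 (k := k)) +
        ((e21 * e12) ⊗ₖ (1 : Matrix (Fin 2) (Fin 2) k) + (e21 * epsM) ⊗ₖ (e12 (k := k))) =
        (e12 * e21 + e21 * e12) ⊗ₖ (1 : Matrix (Fin 2) (Fin 2) k) +
          (epsM * e21 + e21 * epsM) ⊗ₖ (e12 (k := k)) := by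
      rw [Matrix.add_kronecker, Matrix.add_kronecker]
      abel
    rw [e1, e12_e21, eps_e21, Matrix.zero_kronecker, add_zero, Matrix.one_kronecker_one]
  rw [eX, F1X, ← Matrix.mul_kronecker_mul, ← Matrix.mul_kronecker_mul, ← Matrix.add_kronecker, mul_one, h,
    Matrix.one_kronecker_one]

theorem eX_F2X : (eX (k := k)) * F2X + F2X * eX = 1 := by
  have h : ((e12 (k := k)) ⊗ₖ (1 : Matrix (Fin 2) (Fin 2) k) + (epsM (k := k)) ⊗ₖ (e12 (k := k))) *
      ((epsM (k := k)) ⊗ₖ (e21 (k := k))) +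
      ((epsM (k := k)) ⊗ₖ (e21 (k := k))) *
        ((e12 (k := k)) ⊗ₖ (1 : Matrix (Fin 2) (Fin 2) k) + (epsM (k := k)) ⊗ₖ (e12 (k := k))) = 1 := by
    rw [mul_add, add_mul, ← Matrix.mul_kronecker_mul, ← Matrix.mul_kronecker_mul,
      ← Matrix.mul_kronecker_mul, ← Matrix.mul_kronecker_mul, one_mul, mul_one, eps_eps]
    have e1 : (e12 * epsM) ⊗ₖ (e21 (k := k)) + (1 : Matrix (Fin 2) (Fin 2) k) ⊗ₖ (e12 * e21) +
        ((epsM * e12) ⊗ₖ (e21 (k := k)) + (1 : Matrix (Fin 2) (Fin 2) k) ⊗ₖ (e21 * e12)) =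
        (e12 * epsM + epsM * e12) ⊗ₖ (e21 (k := k)) +
          (1 : Matrix (Fin 2) (Fin 2) k) ⊗ₖ (e12 * e21 + e21 * e12) := by
      rw [Matrix.add_kronecker, Matrix.kronecker_add]
      abel
    rw [e1, e12_e21, e12_eps', Matrix.zero_kronecker, zero_add, Matrix.one_kronecker_one]
  rw [eX, F2X, ← Matrix.mul_kronecker_mul, ← Matrix.mul_kronecker_mul, ← Matrix.add_kronecker, mul_one, h,
    Matrix.one_kronecker_one]

variable {p : ℕ} (hQ : QP p q k)

theorem contr1 : (W.datX hQ).Contr F1X where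
  deg i j h := by
    obtain ⟨-, h1, h2, h3⟩ := F1X_ne h
    change degX i = degX j + 1
    unfold degX
    rw [h1, h2, h3]
    norm_num
    ring
  eF := eX_F1X

theorem contr2 : (W.datX hQ).Contr F2X where
  deg i j h := by
    obtain ⟨-, h1, h2, h3⟩ := F2X_ne h
    change degX i = degX j + 1
    unfold degX
    rw [h1, h2, h3]
    norm_num
  eF := eX_F2X

/-- a functional which kills the sections over the four partial overlaps -/
structure Kills (lam : K →ₗ[k] k) : Prop where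
  fst : ∀ s', s' ≠ Pc.R → ∀ x ∈ W.pc Pc.R s' 0 0, lam x = 0
  snd : ∀ s, s ≠ Pc.R → ∀ x ∈ W.pc s Pc.R 0 0, lam x = 0

/-- the sections over `R × s'` or `s × R` -/
def T1 (i l : IX) : Submodule k K :=
  if i.1.1 = 0 then ⊥ else if l.1.1 = 0 then ⊤ else
    match pcc i.1.2 l.1.2 with
    | some s' => W.pc Pc.R s' (wt l.2.1 - wt i.2.1) (wt l.2.2 - wt i.2.2)
    | none => ⊥

/-- the sections over `s × R` -/
def T2 (i l : IX) : Submodule k K :=
  if i.1.2 = 0 then ⊥ else if l.1.2 = 0 then ⊤ else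
    match pcc i.1.1 l.1.1 with
    | some s => W.pc s Pc.R (wt l.2.1 - wt i.2.1) (wt l.2.2 - wt i.2.2)
    | none => ⊥

theorem T1_one {i l : IX} (h : i.1.1 = 1) (h' : l.1.1 = 1) : W.T1 i l =
    match pcc i.1.2 l.1.2 with
    | some s' => W.pc Pc.R s' (wt l.2.1 - wt i.2.1) (wt l.2.2 - wt i.2.2)
    | none => ⊥ := by
  unfold T1
  rw [if_neg (by rw [h]; decide), if_neg (by rw [h']; decide)]

theorem T2_one {i l : IX} (h : i.1.2 = 1) (h' : l.1.2 = 1) : W.T2 i l =
    match pcc i.1.1 l.1.1 with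
    | some s => W.pc s Pc.R (wt l.2.1 - wt i.2.1) (wt l.2.2 - wt i.2.2)
    | none => ⊥ := by
  unfold T2
  rw [if_neg (by rw [h]; decide), if_neg (by rw [h']; decide)]

theorem fin2 {c : Fin 2} (h : c ≠ 0) : c = 1 := by
  fin_cases c
  · exact absurd rfl h
  · rfl

/-- the vanishing in the first direction -/
def van1 {lam : K →ₗ[k] k} (hlam : W.Kills lam) : (W.datX hQ).Van F1X lam where
  T := W.T1
  T_mul i j l x y hx hy := by
    by_cases hi : i.1.1 = 0
    · unfold T1 at hx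
      rw [if_pos hi, Submodule.mem_bot] at hx
      rw [hx, zero_mul]
      exact Submodule.zero_mem _
    by_cases hj : j.1.1 = 0
    · unfold T1 at hy
      rw [if_pos hj, Submodule.mem_bot] at hy
      rw [hy, mul_zero]
      exact Submodule.zero_mem _
    by_cases hl : l.1.1 = 0
    · unfold T1
      rw [if_neg hi, if_pos hl]
      trivial
    rw [W.T1_one (fin2 hi) (fin2 hj)] at hx
    rw [W.T1_one (fin2 hj) (fin2 hl)] at hy
    rw [W.T1_one (fin2 hi) (fin2 hl)]
    cases h1 : pcc i.1.2 j.1.2 with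
    | none =>
      rw [h1] at hx
      rw [(Submodule.mem_bot k).1 hx, zero_mul]
      exact Submodule.zero_mem _
    | some s =>
      cases h2 : pcc j.1.2 l.1.2 with
      | none =>
        rw [h2] at hy
        rw [(Submodule.mem_bot k).1 hy, mul_zero]
        exact Submodule.zero_mem _
      | some s' =>
        rw [h1] at hx
        rw [h2] at hy
        obtain ⟨z, h3, hs, hs'⟩ := pcc_mul h1 h2
        rw [h3]
        have := W.pc_mul_mem hQ Pc.R z (W.pc_le_of_Le hQ (Le.refl Pc.R) hs _ _ hx)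
          (W.pc_le_of_Le hQ (Le.refl Pc.R) hs' _ _ hy)
        rw [show wt j.2.1 - wt i.2.1 + (wt l.2.1 - wt j.2.1) = wt l.2.1 - wt i.2.1 by ring,
          show wt j.2.2 - wt i.2.2 + (wt l.2.2 - wt j.2.2) = wt l.2.2 - wt i.2.2 by ring] at this
        exact this
  F_S i j l x h hx := by
    obtain ⟨h0, h1, h2, h3⟩ := F1X_ne h
    by_cases hl : l.1.1 = 0
    · unfold T1
      rw [if_neg (by rw [h1]; decide), if_pos hl]
      trivial
    rw [W.T1_one h1 (fin2 hl)]
    have hR : pcc j.1.1 l.1.1 = some Pc.R := by rw [h2, fin2 hl]; rfl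
    rcases W.SX_cases hx with rfl | ⟨s, s', h4, h5, hx⟩
    · exact Submodule.zero_mem _
    · rw [h3, h5, h0]
      rw [hR] at h4
      rw [← Option.some.inj h4] at hx
      exact hx
  lam_T i x hx := by
    by_cases hi : i.1.1 = 0
    · unfold T1 at hx
      rw [if_pos hi, Submodule.mem_bot] at hx
      rw [hx, map_zero]
    · rw [W.T1_one (fin2 hi) (fin2 hi)] at hx
      have hd : ∀ c : Fin 2, ∃ s, s ≠ Pc.R ∧ pcc c c = some s := by
        intro c
        fin_cases c
        · exact ⟨Pc.X, by decide, rfl⟩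
        · exact ⟨Pc.Y, by decide, rfl⟩
      obtain ⟨s, hs, hs'⟩ := hd i.1.2
      rw [hs', sub_self, sub_self] at hx
      exact hlam.fst s hs x hx

/-- the vanishing in the second direction -/
def van2 {lam : K →ₗ[k] k} (hlam : W.Kills lam) : (W.datX hQ).Van F2X lam where
  T := W.T2
  T_mul i j l x y hx hy := by
    by_cases hi : i.1.2 = 0
    · unfold T2 at hx
      rw [if_pos hi, Submodule.mem_bot] at hx
      rw [hx, zero_mul]
      exact Submodule.zero_mem _
    by_cases hj : j.1.2 = 0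
    · unfold T2 at hy
      rw [if_pos hj, Submodule.mem_bot] at hy
      rw [hy, mul_zero]
      exact Submodule.zero_mem _
    by_cases hl : l.1.2 = 0
    · unfold T2
      rw [if_neg hi, if_pos hl]
      trivial
    rw [W.T2_one (fin2 hi) (fin2 hj)] at hx
    rw [W.T2_one (fin2 hj) (fin2 hl)] at hy
    rw [W.T2_one (fin2 hi) (fin2 hl)]
    cases h1 : pcc i.1.1 j.1.1 with
    | none =>
      rw [h1] at hx
      rw [(Submodule.mem_bot k).1 hx, zero_mul]
      exact Submodule.zero_mem _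
    | some s =>
      cases h2 : pcc j.1.1 l.1.1 with
      | none =>
        rw [h2] at hy
        rw [(Submodule.mem_bot k).1 hy, mul_zero]
        exact Submodule.zero_mem _
      | some s' =>
        rw [h1] at hx
        rw [h2] at hy
        obtain ⟨z, h3, hs, hs'⟩ := pcc_mul h1 h2
        rw [h3]
        have := W.pc_mul_mem hQ z Pc.R (W.pc_le_of_Le hQ hs (Le.refl Pc.R) _ _ hx)
          (W.pc_le_of_Le hQ hs' (Le.refl Pc.R) _ _ hy)
        rw [show wt j.2.1 - wt i.2.1 + (wt l.2.1 - wt j.2.1) = wt l.2.1 - wt i.2.1 by ring,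
          show wt j.2.2 - wt i.2.2 + (wt l.2.2 - wt j.2.2) = wt l.2.2 - wt i.2.2 by ring] at this
        exact this
  F_S i j l x h hx := by
    obtain ⟨h0, h1, h2, h3⟩ := F2X_ne h
    by_cases hl : l.1.2 = 0
    · unfold T2
      rw [if_neg (by rw [h1]; decide), if_pos hl]
      trivial
    rw [W.T2_one h1 (fin2 hl)]
    have hR : pcc j.1.2 l.1.2 = some Pc.R := by rw [h2, fin2 hl]; rfl
    rcases W.SX_cases hx with rfl | ⟨s, s', h4, h5, hx⟩
    · exact Submodule.zero_mem _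
    · rw [h3, h4, h0]
      rw [hR] at h5
      rw [← Option.some.inj h5] at hx
      exact hx
  lam_T i x hx := by
    by_cases hi : i.1.2 = 0
    · unfold T2 at hx
      rw [if_pos hi, Submodule.mem_bot] at hx
      rw [hx, map_zero]
    · rw [W.T2_one (fin2 hi) (fin2 hi)] at hx
      have hd : ∀ c : Fin 2, ∃ s, s ≠ Pc.R ∧ pcc c c = some s := by
        intro c
        fin_cases c
        · exact ⟨Pc.X, by decide, rfl⟩
        · exact ⟨Pc.Y, by decide, rfl⟩
      obtain ⟨s, hs, hs'⟩ := hd i.1.1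
      rw [hs', sub_self, sub_self] at hx
      exact hlam.snd s hs x hx

theorem F2F1 : (F2X (k := k)) * F1X = -(((e21 (k := k)) ⊗ₖ (e21 (k := k))) ⊗ₖ
    (1 : Matrix (Fin 2 × Fin 2) (Fin 2 × Fin 2) k)) := by
  have h : (epsM (k := k)) * e21 = - e21 := by
    ext i j
    fin_cases i <;> fin_cases j <;> simp [epsM, e21]
  rw [F2X, F1X, ← Matrix.mul_kronecker_mul, ← Matrix.mul_kronecker_mul, h, mul_one, mul_one]
  ext i j
  simp [Matrix.kroneckerMap_apply]

/-- the value on `F2 F1 w` -/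
theorem str_F2F1 (w : Matrix IX IX K) :
    (W.datX hQ).strK (MatDat.fK (K := K) (F2X (k := k)) * MatDat.fK (F1X (k := k)) * w) = - ∑ g, w ((0, 0), g) ((1, 1), g) := by
  rw [← MatDat.fK_mul, F2F1, MatDat.strK_apply, Fintype.sum_prod_type, ← Finset.sum_neg_distrib]
  have hz : ∀ (c : Fin 2 × Fin 2), c ≠ (1, 1) → ∀ g : Fin 2 × Fin 2, (MatDat.fK (K := K) (-(((e21 (k := k)) ⊗ₖ (e21 (k := k))) ⊗ₖ
      (1 : Matrix (Fin 2 × Fin 2) (Fin 2 × Fin 2) k))) * w : Matrix IX IX K) (c, g) (c, g) = 0 := by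
    intro c hc g
    rw [Matrix.mul_apply]
    refine Finset.sum_eq_zero fun j _ => ?_
    have h0 : (-(((e21 (k := k)) ⊗ₖ (e21 (k := k))) ⊗ₖ
      (1 : Matrix (Fin 2 × Fin 2) (Fin 2 × Fin 2) k))) (c, g) j = 0 := by
      rw [Matrix.neg_apply, neg_eq_zero]
      change ((e21 (k := k)) c.1 j.1.1 * (e21 (k := k)) c.2 j.1.2) * _ = 0
      by_contra h1
      have h2 := left_ne_zero_of_mul h1
      have h3 := e21_ne (left_ne_zero_of_mul h2)
      have h4 := e21_ne (right_ne_zero_of_mul h2)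
      exact hc (Prod.ext h3.1 h4.1)
    rw [MatDat.fK_apply, h0, map_zero, zero_mul]
  rw [Finset.sum_eq_single ((1, 1) : Fin 2 × Fin 2)]
  · refine Finset.sum_congr rfl fun g _ => ?_
    have hs : (W.datX hQ).sg (K := K) (((1, 1), g) : IX) = 1 := by
      unfold MatDat.sg
      rw [if_pos]
      change Even (degX (((1, 1), g) : IX))
      unfold degX
      norm_num
    rw [hs, one_mul, Matrix.mul_apply, Finset.sum_eq_single (((0, 0), g) : IX)]
    · rw [MatDat.fK_apply]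
      have h5 : (-(((e21 (k := k)) ⊗ₖ (e21 (k := k))) ⊗ₖ
        (1 : Matrix (Fin 2 × Fin 2) (Fin 2 × Fin 2) k))) ((1, 1), g) ((0, 0), g) = -1 := by
        rw [Matrix.neg_apply]
        change - (((e21 (k := k)) 1 0 * (e21 (k := k)) 1 0) * (1 : Matrix (Fin 2 × Fin 2) (Fin 2 × Fin 2) k) g g) = -1
        rw [Matrix.one_apply_eq]
        simp [e21]
      rw [h5, map_neg, map_one, neg_one_mul]
    · intro j _ hj
      have h0 : (-(((e21 (k := k)) ⊗ₖ (e21 (k := k))) ⊗ₖ
        (1 : Matrix (Fin 2 × Fin 2) (Fin 2 × Fin 2) k))) ((1, 1), g) j = 0 := by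
        rw [Matrix.neg_apply, neg_eq_zero]
        change ((e21 (k := k)) 1 j.1.1 * (e21 (k := k)) 1 j.1.2) * (1 : Matrix (Fin 2 × Fin 2) (Fin 2 × Fin 2) k) g j.2 = 0
        by_contra h1
        have h2 := left_ne_zero_of_mul h1
        have h3 := e21_ne (left_ne_zero_of_mul h2)
        have h4 := e21_ne (right_ne_zero_of_mul h2)
        have h5 := CurR.one_ne (right_ne_zero_of_mul h1)
        exact hj (Prod.ext (Prod.ext h3.2 h4.2) h5.symm)
      rw [MatDat.fK_apply, h0, map_zero, zero_mul]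
    · intro h
      exact absurd (Finset.mem_univ _) h
  · intro c _ hc
    exact Finset.sum_eq_zero fun g _ => by rw [hz c hc g, mul_zero]
  · intro h
    exact absurd (Finset.mem_univ _) h

end SurR

end EK
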