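import Pool.Agent.H82.BD.Det
import Pool.Agent.H21.EK.CX

/-!
# EK, block C: detection of classes of `HP(AX)`

`C_out`: a class of `HP (AX)` of degree `-2` with zero columns `p > 0` and the word `(w)` of length one in column `0` is not
zero if a functional which kills the sections over the four partial overlaps does not vanish on the corner entry of `w`.
-/

set_option autoImplicit false
set_option linter.unusedSectionVars false

open NC NC.TwoC

noncomputable section

namespace EK

variable {k : Type} [Field k] {K : Type} [CommRing K] [Algebra k K]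
  {ι : Type} [Fintype ι] [DecidableEq ι]

namespace MatDat

variable (d : MatDat k K ι)

/-- a matrix over `k` as an element of the dg algebra of all matrices -/
def fel (F : Matrix ι ι k) : (matZ d.top).V := EK.mk d.top (fK F) (fun _ _ => Submodule.mem_top)

theorem mv_fel (F : Matrix ι ι k) : mv d.top (d.fel F) = fK F := rfl

/-- the supertrace -/
def tau (lam : K →ₗ[k] k) : (matZ d.top).V →ₗ[k] k := lam ∘ₗ d.strK ∘ₗ mv d.top

theorem tau_apply (lam : K →ₗ[k] k) (x : (matZ d.top).V) : d.tau lam x = lam (d.strK (mv d.top x)) := rfl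

theorem strK_pM (x : Matrix ι ι K) : d.strK (d.pM x) = d.strK x := by
  rw [strK_apply, strK_apply]
  refine Finset.sum_congr rfl fun i _ => ?_
  rw [pM_apply, if_pos (by rw [sub_self]; exact Even.zero)]

theorem isCn {F : Matrix ι ι k} (h : d.Contr F) : IsCn (matZ d.top).toDGA (d.fel F) where
  odd := by
    refine m_ext d.top ?_
    have h1 : d.pM (fK (K := K) F) = 0 := by
      rw [d.pM_gr h.gr, if_neg (by decide)]
    exact h1
  D := m_ext d.top h.dM_one

theorem fel_gr {F : Matrix ι ι k} (h : d.Contr F) : d.fel F ∈ (matZ d.top).gr (-1) := h.gr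

theorem isST (lam : K →ₗ[k] k) : IsST (matZ d.top).toDGA (d.tau lam) where
  D a := by
    rw [tau_apply]
    change lam (d.strK (d.dM (mv d.top a))) = 0
    rw [strK_dM, map_zero]
  comm a b p q ha hb := by
    have hE : d.eM (mv d.top a) = NC.sg k p • mv d.top a := congrArg (mv d.top) ha.E
    have h1 : d.tau lam ((matZ d.top).mul a b) = NC.sg k p * d.tau lam ((matZ d.top).mul b a) := by
      rw [tau_apply, tau_apply, mv_mul, mv_mul, strK_mul, hE, Matrix.mul_smul, map_smul, map_smul, smul_eq_mul]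
    rw [h1]
    cases p
    · rfl
    · cases q
      · have h2 : d.tau lam ((matZ d.top).mul b a) = 0 := by
          have ha' : d.pM (mv d.top a) = 0 := congrArg (mv d.top) ha
          have hb' : d.pM (mv d.top b) = mv d.top b := congrArg (mv d.top) hb
          rw [tau_apply, mv_mul, ← strK_pM, pM_mul, ha', hb', sub_self, zero_mul, mul_zero, add_zero, map_zero, map_zero]
        rw [h2, mul_zero, mul_zero]
      · rfl

variable {d}

theorem Van.TFc {F : Matrix ι ι k} {lam : K →ₗ[k] k} (V : d.Van F lam) (v : (matZ d).cyc.V) :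
    TFc (matZ d.top) (d.fel F) (d.tau lam) ((topHom d).cyc.f v) = 0 := by
  refine TFc_van (topHom d) (d.fel F) (d.tau lam) (fun L hL => ?_) v
  have key : ∀ (l : List (matZ d).V) (a : (matZ d).V),
      mv d.top (((a :: l).map (fun a => (matZ d.top).mul (d.fel F) ((topHom d).f a))).prod) =
        fprod (fK F) (mv d a) (l.map (mv d)) := by
    intro l
    induction l with
    | nil =>
      intro a
      rw [List.map_cons, List.map_nil, List.prod_cons, List.prod_nil, mul_one, mv_mul]
      rfl
    | cons b l ih =>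
      intro a
      rw [List.map_cons, List.prod_cons, mv_mul', ih b, mv_mul]
      rfl
  cases L with
  | nil => exact absurd rfl hL
  | cons a l =>
    rw [tau_apply, key]
    refine V.fprod_zero _ _ a.2 ?_
    intro b hb
    obtain ⟨c, -, rfl⟩ := List.mem_map.1 hb
    exact c.2

end MatDat

namespace SurR

open H36.NX

variable {q : ℕ} {R : Type} [CommRing R] [Algebra k R] {C : CurR q k R} (W : SurR C K) {p : ℕ} (hQ : QP p q k)

/-- **Detection.** -/
theorem C_out {lam : K →ₗ[k] k} (hlam : W.Kills lam) {w : (W.AX hQ).V} (hw : w ∈ (W.AX hQ).gr 2)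
    {P : ℤ → (W.AX hQ).cyc.V} (hP : P ∈ (W.AX hQ).cyc.Z Set.univ (-2))
    (hP0 : P 0 = (Wd.nil w : Wd k (W.AX hQ).V (W.AX hQ).V)) (hP1 : ∀ p, 0 < p → P p = 0)
    (hne : lam (∑ g, mv (W.datX hQ) w ((0, 0), g) ((1, 1), g)) ≠ 0) : (W.AX hQ).cyc.cls P hP ≠ 0 := by
  have hw' : w ∈ (W.AX hQ).gr (-(-2)) := by
    rw [neg_neg]
    exact hw
  refine cls_ne_zero (topHom (W.datX hQ)) ((W.datX hQ).isCn (W.contr1 hQ)) ((W.datX hQ).isCn (W.contr2 hQ))
    ((W.datX hQ).fel_gr (W.contr1 hQ)) ((W.datX hQ).isST lam) (W.van1 hQ hlam).TFc (W.van2 hQ hlam).TFc hw' hP hP0 hP1 ?_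
  have h1 : (W.datX hQ).tau lam ((matZ (W.datX hQ).top).mul ((W.datX hQ).fel F1X)
      ((matZ (W.datX hQ).top).mul ((W.datX hQ).fel F1X) ((topHom (W.datX hQ)).f w))) = 0 := by
    rw [MatDat.tau_apply, mv_mul, mv_mul, MatDat.mv_fel, ← mul_assoc, ← MatDat.fK_mul, F1X_sq]
    have h0 : MatDat.fK (K := K) (0 : Matrix IX IX k) = 0 := Matrix.map_zero _ (map_zero _)
    rw [h0, zero_mul, map_zero, map_zero]
  have h2 : (W.datX hQ).tau lam ((matZ (W.datX hQ).top).mul ((W.datX hQ).fel F2X)
      ((matZ (W.datX hQ).top).mul ((W.datX hQ).fel F1X) ((topHom (W.datX hQ)).f w))) =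
        - lam (∑ g, mv (W.datX hQ) w ((0, 0), g) ((1, 1), g)) := by
    rw [MatDat.tau_apply, mv_mul, mv_mul, MatDat.mv_fel, MatDat.mv_fel, ← mul_assoc, W.str_F2F1 hQ, map_neg]
    rfl
  rw [h1, h2]
  intro h
  exact hne (neg_eq_zero.1 h.symm)

end SurR

end EK
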