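import Pool.Agent.H21.EK.CX
import Pool.Agent.H36.EK.Mas

/-!
# EK, block D: the functional

`lam f = - (the coefficient of b^(p-q) a ⊗ b^(p-q) a · t^(q-1) in f t^(p-1))` kills the sections over the four partial
overlaps (`Kills_lam`) and `lam (mu entry) = -1` for `q = p ^ 2` (`lam_mu`).
-/

set_option autoImplicit false
set_option linter.unusedSectionVars false

open NC

noncomputable section

namespace EK

open H36.NX

variable {q : ℕ} {k : Type} [Field k] {R : Type} [CommRing R] [Algebra k R]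
  {K : Type} [CommRing K] [Algebra k K]

namespace CurR

variable (C : CurR q k R)

/-- the coefficient of `b^(p-q) a` -/
def rho (p : ℕ) : R →ₗ[k] k := C.bas.coord ((p : ℤ) - q, 1)

theorem rho_bas (p : ℕ) (a : ℤ × Fin 2) : C.rho p (C.bas a) = if a = ((p : ℤ) - q, 1) then 1 else 0 := by
  rw [rho, Module.Basis.coord_apply, C.bas.repr_self, Finsupp.single_apply]

/-- `h ^ (m + 1)` and its leading term -/
theorem h_pow (m : ℕ) : C.h ^ (m + 1) - C.up ((m : ℤ) + 1 - q) * C.a ∈ C.pc Pc.Y m := by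
  have hq : (2 : ℤ) ≤ q := by exact_mod_cast C.hq
  have hh : C.h = C.up (1 - q) * C.a := mul_comm _ _
  have hh1 : C.h ∈ C.pc Pc.Y 1 := by
    rw [hh]
    exact C.upa_mem_Y (by ring_nf; exact le_rfl)
  induction m with
  | zero =>
    rw [zero_add, pow_one, hh, Nat.cast_zero, zero_add, sub_self]
    exact Submodule.zero_mem _
  | succ m ih =>
    have e : C.h ^ (m + 1 + 1) - C.up (((m + 1 : ℕ) : ℤ) + 1 - q) * C.a =
        C.h * (C.h ^ (m + 1) - C.up ((m : ℤ) + 1 - q) * C.a) -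
          C.up ((m : ℤ) + 3 - 2 * q) * C.a + C.up ((m : ℤ) + 2 - 2 * q) := by
      have e1 : C.h * (C.up ((m : ℤ) + 1 - q) * C.a) = C.up ((m : ℤ) + 2 - 2 * q) * (C.a * C.a) := by
        rw [hh]
        have : C.up ((m : ℤ) + 2 - 2 * q) = C.up (1 - q) * C.up ((m : ℤ) + 1 - q) := by
          rw [← up_add]
          congr 1
          ring
        rw [this]
        ring
      have e2 : C.up ((m : ℤ) + 2 - 2 * q) * (C.a * C.a) = C.up (((m + 1 : ℕ) : ℤ) + 1 - q) * C.a -
          C.up ((m : ℤ) + 3 - 2 * q) * C.a + C.up ((m : ℤ) + 2 - 2 * q) := by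
        rw [C.rel']
        have f1 : C.up (((m + 1 : ℕ) : ℤ) + 1 - q) = C.up ((m : ℤ) + 2 - 2 * q) * C.up q := by
          rw [← up_add]
          congr 1
          push_cast
          ring
        have f2 : C.up ((m : ℤ) + 3 - 2 * q) = C.up ((m : ℤ) + 2 - 2 * q) * C.up 1 := by
          rw [← up_add]
          congr 1
          ring
        rw [f1, f2]
        ring
      rw [mul_sub, e1, e2, pow_succ']
      ring
    rw [e]
    refine Submodule.add_mem _ (Submodule.sub_mem _ ?_ ?_) ?_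
    · have := C.pc_mul_mem Pc.Y hh1 ih
      have e3 : (1 : ℤ) + m = ((m + 1 : ℕ) : ℤ) := by push_cast; ring
      rwa [e3] at this
    · refine C.upa_mem_Y ?_
      push_cast
      linarith
    · refine C.up_mem_Y ?_
      push_cast
      linarith

theorem h_pow_mem (m : ℕ) : C.h ^ m ∈ C.pc Pc.Y m := by
  cases m with
  | zero =>
    rw [pow_zero]
    exact C.one_mem_pc Pc.Y (by simp)
  | succ m =>
    have h1 := C.pc_mono Pc.Y (show (m : ℤ) ≤ ((m + 1 : ℕ) : ℤ) by push_cast; linarith) (C.h_pow m)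
    have h2 : C.up ((m : ℤ) + 1 - q) * C.a ∈ C.pc Pc.Y ((m + 1 : ℕ) : ℤ) := C.upa_mem_Y (by push_cast; linarith)
    have := Submodule.add_mem _ h1 h2
    rwa [sub_add_cancel] at this

theorem rho_Y (p : ℕ) {n : ℤ} (hn : n < p) {x : R} (hx : x ∈ C.pc Pc.Y n) : C.rho p x = 0 := by
  refine (C.mem_pc_iff Pc.Y n x).1 hx _ _ ?_
  change ¬ ((p : ℤ) - q + (q : ℤ) * (((1 : Fin 2) : ℕ) : ℤ) ≤ n)
  simp
  exact hn

theorem rho_X {p : ℕ} (hp : p < q) {n : ℤ} {x : R} (hx : x ∈ C.pc Pc.X n) : C.rho p x = 0 := by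
  refine (C.mem_pc_iff Pc.X n x).1 hx _ _ ?_
  change ¬ (0 ≤ (p : ℤ) - q)
  omega

theorem rho_h {p : ℕ} (hp : 0 < p) : C.rho p (C.h ^ p) = 1 := by
  obtain ⟨m, rfl⟩ : ∃ m, p = m + 1 := ⟨p - 1, by omega⟩
  have h1 := C.rho_Y (m + 1) (show (m : ℤ) < ((m + 1 : ℕ) : ℤ) by push_cast; linarith) (C.h_pow m)
  have h2 : C.rho (m + 1) (C.up ((m : ℤ) + 1 - q) * C.a) = 1 := by
    rw [← C.bas_one, C.rho_bas, if_pos]
    push_cast
    rfl
  rw [map_sub, h2] at h1
  exact sub_eq_zero.1 h1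

/-- the shift of `t` -/
def zz (s : Pc) : R :=
  match s with
  | Pc.Y => C.h
  | _ => 0

theorem rho_zz {p : ℕ} (hp : p < q) {s : Pc} (hs : s ≠ Pc.R) {y : R} (hy : y ∈ C.pc s 0) {m : ℕ} (hm : m < p) :
    C.rho p (y * C.zz s ^ m) = 0 := by
  cases s with
  | X =>
    cases m with
    | zero =>
      rw [pow_zero, mul_one]
      exact C.rho_X hp hy
    | succ m =>
      have : C.zz Pc.X = 0 := rfl
      rw [this, zero_pow (Nat.succ_ne_zero m), mul_zero, map_zero]
  | Y =>
    have h1 := C.pc_mul_mem Pc.Y hy (C.h_pow_mem m)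
    exact C.rho_Y p (by omega) h1
  | R => exact absurd rfl hs

end CurR

namespace SurR

variable {C : CurR q k R} (W : SurR C K)

theorem tt_eqz (s s' : Pc) : W.tt s s' = W.t - W.l (C.zz s) + W.r (C.zz s') := by
  cases s <;> cases s' <;> simp [tt, CurR.zz]

/-- the coefficient of `b^(p-q) a ⊗ b^(p-q) a · t^(q-1)` -/
def cf (p : ℕ) : K →ₗ[k] k :=
  W.bas.coord (((p : ℤ) - q, 1), ((p : ℤ) - q, 1), ⟨q - 1, by have := C.hq; omega⟩)

theorem cf_apply (p : ℕ) (x y : R) {i : ℕ} (hi : i < q) :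
    W.cf p (W.l x * W.r y * W.t ^ i) = if i = q - 1 then C.rho p x * C.rho p y else 0 := by
  have key : LinearMap.mk₂ k (fun x y => W.cf p (W.l x * W.r y * W.t ^ i))
      (fun x x' y => by rw [map_add, add_mul, add_mul, map_add])
      (fun c x y => by rw [map_smul, smul_mul_assoc, smul_mul_assoc, map_smul])
      (fun x y y' => by rw [map_add, mul_add, add_mul, map_add])
      (fun c x y => by rw [map_smul, mul_smul_comm, smul_mul_assoc, map_smul]) =
      LinearMap.mk₂ k (fun x y => if i = q - 1 then C.rho p x * C.rho p y else 0)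
      (fun x x' y => by split_ifs <;> simp [add_mul])
      (fun c x y => by split_ifs <;> simp [mul_assoc])
      (fun x y y' => by split_ifs <;> simp [mul_add])
      (fun c x y => by split_ifs <;> simp [mul_left_comm]) := by
    refine C.bas.ext fun a => C.bas.ext fun b => ?_
    rw [LinearMap.mk₂_apply, LinearMap.mk₂_apply, C.rho_bas, C.rho_bas]
    have h1 := W.bas_eq a b ⟨i, hi⟩
    change _ = W.l (C.bas a) * W.r (C.bas b) * W.t ^ i at h1
    rw [← h1, cf, Module.Basis.coord_apply, W.bas.repr_self, Finsupp.single_apply]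
    by_cases ha : a = ((p : ℤ) - q, 1)
    · by_cases hb : b = ((p : ℤ) - q, 1)
      · by_cases hi' : i = q - 1
        · rw [if_pos, if_pos hi', if_pos ha, if_pos hb, mul_one]
          rw [ha, hb]
          simp [hi']
        · rw [if_neg, if_neg hi']
          intro h
          exact hi' (Fin.mk.inj (Prod.mk.inj (Prod.mk.inj h).2).2)
      · rw [if_neg, if_neg hb, mul_zero, ite_self]
        intro h
        exact hb (Prod.mk.inj (Prod.mk.inj h).2).1
    · rw [if_neg, if_neg ha, zero_mul, ite_self]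
      intro h
      exact ha (Prod.mk.inj h).1
  exact congrFun (congrArg DFunLike.coe (congrFun (congrArg DFunLike.coe key) x)) y

/-- the elements of degree less than `n` in `t` -/
def TD (n : ℕ) : Submodule k K :=
  Submodule.span k {z | ∃ (x y : R) (i : ℕ), i < n ∧ z = W.l x * W.r y * W.t ^ i}

theorem TD_mono {m n : ℕ} (h : m ≤ n) : W.TD m ≤ W.TD n := by
  refine Submodule.span_mono ?_
  rintro _ ⟨x, y, i, hi, rfl⟩
  exact ⟨x, y, i, by omega, rfl⟩

theorem mem_TD (x y : R) {i n : ℕ} (h : i < n) : W.l x * W.r y * W.t ^ i ∈ W.TD n :=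
  Submodule.subset_span ⟨x, y, i, h, rfl⟩

theorem TD_mul {m n : ℕ} {z w : K} (hz : z ∈ W.TD (m + 1)) (hw : w ∈ W.TD (n + 1)) : z * w ∈ W.TD (m + n + 1) := by
  have h1 : ∀ z ∈ {z | ∃ (x y : R) (i : ℕ), i < m + 1 ∧ z = W.l x * W.r y * W.t ^ i}, z * w ∈ W.TD (m + n + 1) := by
    rintro _ ⟨x, y, i, hi, rfl⟩
    refine Submodule.span_induction (p := fun w _ => W.l x * W.r y * W.t ^ i * w ∈ W.TD (m + n + 1)) ?_ ?_ ?_ ?_ hw
    · rintro _ ⟨x', y', j, hj, rfl⟩
      have e : W.l x * W.r y * W.t ^ i * (W.l x' * W.r y' * W.t ^ j) = W.l (x * x') * W.r (y * y') * W.t ^ (i + j) := by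
        rw [map_mul, map_mul, pow_add]
        ring
      rw [e]
      exact W.mem_TD _ _ (by omega)
    · rw [mul_zero]
      exact Submodule.zero_mem _
    · intro a b _ _ ha hb
      rw [mul_add]
      exact Submodule.add_mem _ ha hb
    · intro c a _ ha
      rw [mul_smul_comm]
      exact Submodule.smul_mem _ _ ha
  refine Submodule.span_induction (p := fun z _ => z * w ∈ W.TD (m + n + 1)) h1 ?_ ?_ ?_ hz
  · rw [zero_mul]
    exact Submodule.zero_mem _
  · intro a b _ _ ha hb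
    rw [add_mul]
    exact Submodule.add_mem _ ha hb
  · intro c a _ ha
    rw [smul_mul_assoc]
    exact Submodule.smul_mem _ _ ha

theorem one_mem_TD (n : ℕ) : (1 : K) ∈ W.TD (n + 1) := by
  have h := W.mem_TD 1 1 (i := 0) (n := n + 1) (by omega)
  rwa [map_one, map_one, mul_one, pow_zero, mul_one] at h

theorem l_mem_TD (x : R) : W.l x ∈ W.TD (0 + 1) := by
  have h := W.mem_TD x 1 (i := 0) (n := 0 + 1) (by omega)
  rwa [map_one, mul_one, pow_zero, mul_one] at h

theorem r_mem_TD (x : R) : W.r x ∈ W.TD (0 + 1) := by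
  have h := W.mem_TD 1 x (i := 0) (n := 0 + 1) (by omega)
  rwa [map_one, one_mul, pow_zero, mul_one] at h

theorem t_mem_TD (i : ℕ) : W.t ^ i ∈ W.TD (i + 1) := by
  have h := W.mem_TD 1 1 (i := i) (n := i + 1) (by omega)
  rwa [map_one, map_one, one_mul, one_mul] at h

theorem nat_mem_TD (n : ℕ) : (n : K) ∈ W.TD (0 + 1) := by
  rw [← nsmul_one]
  exact nsmul_mem (W.one_mem_TD 0) n

theorem TD_pow {m : ℕ} {z : K} (hz : z ∈ W.TD (m + 1)) (n : ℕ) : z ^ n ∈ W.TD (m * n + 1) := by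
  induction n with
  | zero =>
    rw [pow_zero]
    exact W.one_mem_TD _
  | succ n ih =>
    rw [pow_succ, Nat.mul_succ]
    exact W.TD_mul ih hz

theorem TD_mul_zero {z w : K} (hz : z ∈ W.TD (0 + 1)) (hw : w ∈ W.TD (0 + 1)) : z * w ∈ W.TD (0 + 1) := by
  have := W.TD_mul hz hw
  rwa [zero_add] at this

theorem TD_pow_zero {z : K} (hz : z ∈ W.TD (0 + 1)) (n : ℕ) : z ^ n ∈ W.TD (0 + 1) := by
  have := W.TD_pow hz n
  rwa [zero_mul] at this

theorem cf_TD (p : ℕ) {z : K} (hz : z ∈ W.TD (q - 1)) : W.cf p z = 0 := by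
  have h : W.TD (q - 1) ≤ LinearMap.ker (W.cf p) := by
    refine Submodule.span_le.2 ?_
    rintro _ ⟨x, y, i, hi, rfl⟩
    change W.cf p _ = 0
    rw [W.cf_apply p x y (by omega), if_neg (by omega)]
  exact h hz

/-- the coefficient for all exponents which occur -/
theorem cf_mid {p : ℕ} (hpq : p < q) (x y : R) {N : ℕ} (h1 : N ≠ q - 1) (h2 : N ≤ q + p - 2) :
    W.cf p (W.l x * W.r y * W.t ^ N) = 0 := by
  have hq := C.hq
  rcases lt_or_ge N q with h | h
  · rw [W.cf_apply p x y h, if_neg h1]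
  · have e : W.l x * W.r y * W.t ^ N = W.l x * W.r y * W.t ^ (N - q + 1) + W.l (x * C.a) * W.r y * W.t ^ (N - q) -
        W.l x * W.r (y * C.a) * W.t ^ (N - q) := by
      have e1 : W.t ^ N = W.t ^ (N - q) * W.t ^ q := by
        rw [← pow_add]
        congr 1
        omega
      rw [e1, W.rel, map_mul, map_mul, pow_succ]
      ring
    rw [e, map_sub, map_add, W.cf_TD p (W.mem_TD x y (by omega)), W.cf_TD p (W.mem_TD _ y (by omega)),
      W.cf_TD p (W.mem_TD x _ (by omega))]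
    simp

/-- the functional -/
def lam (p : ℕ) : K →ₗ[k] k := -(W.cf p ∘ₗ LinearMap.mulRight k (W.t ^ (p - 1)))

theorem lam_apply (p : ℕ) (f : K) : W.lam p f = - W.cf p (f * W.t ^ (p - 1)) := rfl

theorem Kills_lam {p : ℕ} (hp : 2 ≤ p) (hpq : p < q) : W.Kills (W.lam p) where
  fst s' hs' := by
    have h : W.pc Pc.R s' 0 0 ≤ LinearMap.ker (W.lam p) := by
      refine Submodule.span_le.2 ?_
      rintro _ ⟨x, hx, y, hy, i, hi, rfl⟩
      change W.lam p _ = 0
      rw [lam_apply, neg_eq_zero, W.tt_eqz]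
      have e0 : C.zz Pc.R = 0 := rfl
      rw [e0, map_zero, sub_zero, add_pow, Finset.mul_sum, Finset.sum_mul, map_sum]
      refine Finset.sum_eq_zero fun j hj => ?_
      have hj' : j ≤ i := by
        have := Finset.mem_range.1 hj
        omega
      have e : W.l x * W.r y * (W.t ^ j * W.r (C.zz s') ^ (i - j) * (i.choose j : K)) * W.t ^ (p - 1) =
          (i.choose j) • (W.l x * W.r (y * C.zz s' ^ (i - j)) * W.t ^ (j + (p - 1))) := by
        rw [map_mul, map_pow, nsmul_eq_mul, pow_add]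
        ring
      rw [e, map_nsmul]
      by_cases h3 : j + (p - 1) = q - 1
      · rw [h3, W.cf_apply p _ _ (by omega), if_pos rfl, C.rho_zz hpq hs' hy (by omega), mul_zero, smul_zero]
      · rw [W.cf_mid hpq _ _ h3 (by omega), smul_zero]
    exact fun x hx => h hx
  snd s hs := by
    have h : W.pc s Pc.R 0 0 ≤ LinearMap.ker (W.lam p) := by
      refine Submodule.span_le.2 ?_
      rintro _ ⟨x, hx, y, hy, i, hi, rfl⟩
      change W.lam p _ = 0
      rw [lam_apply, neg_eq_zero, W.tt_eqz]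
      have e0 : C.zz Pc.R = 0 := rfl
      rw [e0, map_zero, add_zero, sub_eq_add_neg, add_pow, Finset.mul_sum, Finset.sum_mul, map_sum]
      refine Finset.sum_eq_zero fun j hj => ?_
      have hj' : j ≤ i := by
        have := Finset.mem_range.1 hj
        omega
      have e : W.l x * W.r y * (W.t ^ j * (-W.l (C.zz s)) ^ (i - j) * (i.choose j : K)) * W.t ^ (p - 1) =
          ((-1) ^ (i - j) * (i.choose j : ℤ)) • (W.l (x * C.zz s ^ (i - j)) * W.r y * W.t ^ (j + (p - 1))) := by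
        rw [map_mul, map_pow, zsmul_eq_mul, pow_add, neg_pow]
        push_cast
        ring
      rw [e, map_zsmul]
      by_cases h3 : j + (p - 1) = q - 1
      · rw [h3, W.cf_apply p _ _ (by omega), if_pos rfl, C.rho_zz hpq hs hx (by omega), zero_mul, smul_zero]
      · rw [W.cf_mid hpq _ _ h3 (by omega), smul_zero]
    exact fun x hx => h hx

variable {p : ℕ} (hQ : QP p q k)

/-- the leading term of `(t ^ p - c) ^ (n + 1)` -/
theorem lead (p : ℕ) {c : K} (hc : c ∈ W.TD (0 + 1)) (n : ℕ) : (W.t ^ p - c) ^ (n + 1) - W.t ^ (p * (n + 1)) ∈ W.TD (p * n + 1) := by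
  induction n with
  | zero =>
    have e : (W.t ^ p - c) ^ (0 + 1) - W.t ^ (p * (0 + 1)) = - c := by
      rw [zero_add, mul_one, pow_one]
      ring
    rw [e, mul_zero]
    exact Submodule.neg_mem _ hc
  | succ n ih =>
    have e : (W.t ^ p - c) ^ (n + 1 + 1) - W.t ^ (p * (n + 1 + 1)) =
        ((W.t ^ p - c) ^ (n + 1) - W.t ^ (p * (n + 1))) * (W.t ^ p - c) - W.t ^ (p * (n + 1)) * c := by
      have e1 : W.t ^ (p * (n + 1 + 1)) = W.t ^ (p * (n + 1)) * W.t ^ p := by
        rw [← pow_add]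
        congr 1
      rw [e1, pow_succ]
      ring
    rw [e]
    have hm : W.t ^ p - c ∈ W.TD (p + 1) := Submodule.sub_mem _ (W.t_mem_TD p) (W.TD_mono (by omega) hc)
    refine Submodule.sub_mem _ ?_ ?_
    · have := W.TD_mul ih hm
      exact this
    · have := W.TD_mul (W.t_mem_TD (p * (n + 1))) hc
      exact this

include hQ in
theorem lam_mu (hq : q = p ^ 2) : W.lam p (∑ g, mv (W.datX hQ) (W.muX hQ) ((0, 0), g) ((1, 1), g)) = -1 := by
  have hp := hQ.prime
  have hp2 := hp.two_le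
  have := hQ.char
  have hpF : Fact p.Prime := ⟨hp⟩
  have hpq : p < q := by rw [hq]; nlinarith
  rcases subsingleton_or_nontrivial K with hK | hK
  · exfalso
    have h1 := W.bas.ne_zero (((0 : ℤ), (0 : Fin 2)), ((0 : ℤ), (0 : Fin 2)), (⟨0, by omega⟩ : Fin q))
    exact h1 (Subsingleton.elim _ _)
  have hcK : CharP K p := charP_of_injective_algebraMap (algebraMap k K).injective p
  have h2p : 2 * p ≤ q := by rw [hq]; nlinarith
  have hT : W.tt Pc.Y Pc.X = W.t - W.l C.h := by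
    rw [W.tt_eqz]
    have e0 : C.zz Pc.X = 0 := rfl
    rw [e0, map_zero, add_zero]
    rfl
  rw [W.muX_entry hQ, W.muX_formula hQ, lam_apply, neg_inj]
  have htp : W.t ^ (p - 1) ∈ W.TD (p - 1 + 1) := W.t_mem_TD (p - 1)
  have hlh : W.l C.h ∈ W.TD (0 + 1) := W.l_mem_TD _
  have hrh : W.r C.h ∈ W.TD (0 + 1) := W.r_mem_TD _
  -- the third term
  have h3 : W.cf p ((W.l C.h * W.r C.h ^ p) ^ p * Wt p 1 (-1) * W.t ^ (p - 1)) = 0 := by
    have hW : Wt p (1 : K) (-1) ∈ W.TD (0 + 1) := by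
      unfold Wt
      refine Submodule.sum_mem _ fun i _ => ?_
      exact W.TD_mul_zero (W.TD_mul_zero (W.nat_mem_TD _) (W.TD_pow_zero (W.one_mem_TD 0) i))
        (W.TD_pow_zero (Submodule.neg_mem _ (W.one_mem_TD 0)) (p - i))
    have h4 := W.TD_pow_zero (W.TD_mul_zero hlh (W.TD_pow_zero hrh p)) p
    have h5 := W.TD_mul (W.TD_mul h4 hW) htp
    exact W.cf_TD p (W.TD_mono (by omega) h5)
  -- the second term
  have h2 : W.cf p ((-W.r C.h ^ p) ^ p * Wt p (W.tt Pc.Y Pc.X) (W.l C.h) * W.t ^ (p - 1)) = 0 := by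
    have hτ : W.t - W.l C.h ∈ W.TD (1 + 1) := by
      refine Submodule.sub_mem _ ?_ (W.TD_mono (by omega) hlh)
      have := W.t_mem_TD 1
      rwa [pow_one] at this
    have hW : Wt p (W.tt Pc.Y Pc.X) (W.l C.h) ∈ W.TD (p - 1 + 1) := by
      rw [hT]
      unfold Wt
      refine Submodule.sum_mem _ fun i hi => ?_
      rw [Finset.mem_Ioo] at hi
      have h4 := W.TD_mul (W.TD_mul (W.nat_mem_TD (wc p i)) (W.TD_pow hτ i)) (W.TD_pow_zero hlh (p - i))
      exact W.TD_mono (by omega) h4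
    have h4 := W.TD_pow_zero (Submodule.neg_mem _ (W.TD_pow_zero hrh p)) p
    have h5 := W.TD_mul (W.TD_mul h4 hW) htp
    exact W.cf_TD p (W.TD_mono (by omega) h5)
  -- the first term
  have h1 : W.cf p (W.l C.h ^ p * Wt p (W.tt Pc.Y Pc.X) (W.r C.h) ^ p * W.t ^ (p - 1)) = 1 := by
    have hτ : W.tt Pc.Y Pc.X ^ p = W.t ^ p - W.l C.h ^ p := by rw [hT, sub_pow_char]
    have hc : W.l C.h ^ p ∈ W.TD (0 + 1) := W.TD_pow_zero hlh p
    rw [← Wt_pow hp, hτ]
    unfold Wt
    have hins : Finset.Ioo 0 p = insert (p - 1) (Finset.Ioo 0 (p - 1)) := by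
      ext i
      rw [Finset.mem_insert, Finset.mem_Ioo, Finset.mem_Ioo]
      omega
    rw [hins, Finset.sum_insert (by rw [Finset.mem_Ioo]; omega), wc_last hp, Nat.cast_one, one_mul,
      show p - (p - 1) = 1 by omega, pow_one, mul_add, add_mul, map_add]
    have hm : W.t ^ p - W.l C.h ^ p ∈ W.TD (p + 1) := Submodule.sub_mem _ (W.t_mem_TD p) (W.TD_mono (by omega) hc)
    have hrest : W.cf p (W.l C.h ^ p * (∑ i ∈ Finset.Ioo 0 (p - 1), (wc p i : K) * (W.t ^ p - W.l C.h ^ p) ^ i *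
        (W.r C.h ^ p) ^ (p - i)) * W.t ^ (p - 1)) = 0 := by
      rw [Finset.mul_sum, Finset.sum_mul, map_sum]
      refine Finset.sum_eq_zero fun i hi => ?_
      rw [Finset.mem_Ioo] at hi
      have h4 := W.TD_mul (W.TD_mul hc (W.TD_mul (W.TD_mul (W.nat_mem_TD (wc p i)) (W.TD_pow hm i))
        (W.TD_pow_zero (W.TD_pow_zero hrh p) (p - i)))) htp
      refine W.cf_TD p (W.TD_mono ?_ h4)
      have h5 : p * i ≤ p * (p - 2) := Nat.mul_le_mul_left p (by omega)
      have h6 : p * (p - 2) + p + 1 ≤ q := by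
        rw [hq]
        obtain ⟨r, rfl⟩ : ∃ r, p = r + 2 := ⟨p - 2, by omega⟩
        rw [Nat.add_sub_cancel]
        nlinarith
      omega
    have hmain : W.cf p (W.l C.h ^ p * ((W.t ^ p - W.l C.h ^ p) ^ (p - 1) * W.r C.h ^ p) * W.t ^ (p - 1)) = 1 := by
      obtain ⟨r, hr⟩ : ∃ r, p - 1 = r + 1 := ⟨p - 2, by omega⟩
      have h7 := W.lead p hc r
      rw [← hr] at h7
      have e : W.l C.h ^ p * ((W.t ^ p - W.l C.h ^ p) ^ (p - 1) * W.r C.h ^ p) * W.t ^ (p - 1) =
          W.l (C.h ^ p) * W.r (C.h ^ p) * W.t ^ (q - 1) +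
          W.l C.h ^ p * (((W.t ^ p - W.l C.h ^ p) ^ (p - 1) - W.t ^ (p * (p - 1))) * W.r C.h ^ p) * W.t ^ (p - 1) := by
        have e1 : W.t ^ (q - 1) = W.t ^ (p * (p - 1)) * W.t ^ (p - 1) := by
          rw [← pow_add]
          congr 1
          rw [hq]
          obtain ⟨s, rfl⟩ : ∃ s, p = s + 1 := ⟨p - 1, by omega⟩
          rw [Nat.add_sub_cancel]
          have : (s + 1) ^ 2 = (s + 1) * s + s + 1 := by ring
          omega
        rw [e1, map_pow, map_pow]
        ring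
      have h8 := W.TD_mul (W.TD_mul hc (W.TD_mul h7 (W.TD_pow_zero hrh p))) htp
      have h9 : p * r + p + 1 ≤ q := by
        have h10 : r = p - 2 := by omega
        rw [h10, hq]
        obtain ⟨s, rfl⟩ : ∃ s, p = s + 2 := ⟨p - 2, by omega⟩
        rw [Nat.add_sub_cancel]
        nlinarith
      rw [e, map_add, W.cf_TD p (W.TD_mono (by omega) h8), add_zero, W.cf_apply p _ _ (by omega), if_pos rfl,
        C.rho_h (by omega), one_mul]
    rw [hmain, hrest, add_zero]
  rw [sub_mul, add_mul, map_sub, map_add, h1, h2, h3, add_zero, sub_zero]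

end SurR

end EK
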