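import Pool.Agent.H36.EK.Mat

/-!
# EK, block C: all matrices, contractions, the supertrace and its vanishing

`d.top` is the datum of all matrices, `topHom` the inclusion.  `Contr d F`: a matrix `F` over `k` of degree `-1` with
`e F + F e = 1`.  `strK d x` is the sum of `± x i i`, the sign is the parity of `deg i`; `strK (x y) = strK (y (E x))`,
`strK (D x) = 0`.  `Van d F lam`: there are submodules `T i j`, closed under multiplication, which contain the entries of
`F a` for `a` in `matZ d` and with `lam (T i i) = 0`; then `lam (strK (F a_0 ⋯ F a_n)) = 0`.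
-/

set_option autoImplicit false
set_option linter.unusedSectionVars false

open NC

noncomputable section

namespace EK

variable {k : Type} [Field k] {K : Type} [CommRing K] [Algebra k K]
  {ι : Type} [Fintype ι] [DecidableEq ι]

namespace MatDat

variable (d : MatDat k K ι)

/-- all matrices -/
def top : MatDat k K ι where
  deg := d.deg
  e := d.e
  e_deg := d.e_deg
  e_sq := d.e_sq
  S := fun _ _ => ⊤
  one_mem := fun _ => Submodule.mem_top
  mul_mem := fun _ _ _ _ _ _ _ => Submodule.mem_top
  e_mul := fun _ _ _ _ _ _ => Submodule.mem_top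
  mul_e := fun _ _ _ _ _ _ => Submodule.mem_top

theorem mats_le_top : d.mats ≤ d.top.mats := fun _ _ _ _ => Submodule.mem_top

/-- the sign of an index -/
def sg (i : ι) : K := if Even (d.deg i) then 1 else -1

/-- the supertrace with values in `K` -/
def strK : Matrix ι ι K →ₗ[k] K where
  toFun x := ∑ i, d.sg i * x i i
  map_add' x y := by
    rw [← Finset.sum_add_distrib]
    exact Finset.sum_congr rfl fun i _ => by rw [Matrix.add_apply, mul_add]
  map_smul' c x := by
    rw [RingHom.id_apply, Finset.smul_sum]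
    exact Finset.sum_congr rfl fun i _ => by rw [Matrix.smul_apply, mul_smul_comm]

theorem strK_apply (x : Matrix ι ι K) : d.strK x = ∑ i, d.sg i * x i i := rfl

theorem sg_mul (i j : ι) : d.sg i = d.sg j * (if Even (d.deg j - d.deg i) then 1 else -1 : K) := by
  unfold sg
  by_cases h1 : Even (d.deg i) <;> by_cases h2 : Even (d.deg j) <;>
    simp [h1, h2, Int.even_sub]

theorem strK_mul (x y : Matrix ι ι K) : d.strK (x * y) = d.strK (y * d.eM x) := by
  rw [strK_apply, strK_apply]
  have h1 : ∀ i, d.sg i * (x * y) i i = ∑ j, d.sg i * (x i j * y j i) := fun i => by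
    rw [Matrix.mul_apply, Finset.mul_sum]
  have h2 : ∀ j, d.sg j * (y * d.eM x) j j = ∑ i, d.sg j * (y j i * d.eM x i j) := fun j => by
    rw [Matrix.mul_apply, Finset.mul_sum]
  rw [Finset.sum_congr rfl fun i _ => h1 i, Finset.sum_congr rfl fun j _ => h2 j, Finset.sum_comm]
  refine Finset.sum_congr rfl fun j _ => Finset.sum_congr rfl fun i _ => ?_
  rw [eM_apply, d.sg_mul i j]
  ring

theorem strK_dM (x : Matrix ι ι K) : d.strK (d.dM x) = 0 := by
  rw [dM_apply, map_sub, d.strK_mul (d.eM x), eM_eM, sub_self]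

theorem eM_gr {n : ℤ} {x : Matrix ι ι K} (hx : x ∈ d.grM n) : d.eM x = if Even n then x else -x := by
  rw [pM_eq, d.pM_gr hx]
  split_ifs
  · abel
  · abel

/-- a supertrace -/
theorem strK_comm {m n : ℤ} {x y : Matrix ι ι K} (hx : x ∈ d.grM m) (hy : y ∈ d.grM n) :
    d.strK (x * y) = (if Even (m * n) then 1 else -1 : k) • d.strK (y * x) := by
  rw [strK_mul, d.eM_gr hx]
  by_cases hm : Even m
  · rw [if_pos hm, if_pos (hm.mul_right n), one_smul]
  · rw [if_neg hm, mul_neg, map_neg]
    by_cases hn : Even n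
    · -- the trace of an odd matrix
      rw [if_pos (hn.mul_left m), one_smul]
      have h : d.strK (y * x) = 0 := by
        rw [strK_apply]
        refine Finset.sum_eq_zero fun i _ => ?_
        rw [d.mul_grM hy hx i i, mul_zero]
        rw [sub_self]
        intro h0
        have h1 : Even (n + m) := by
          rw [← h0]
          exact Even.zero
        exact hm ((Int.even_add.1 h1).1 hn)
      rw [h, neg_zero]
    · rw [if_neg (fun h => (Int.even_mul.1 h).elim hm hn), neg_one_smul]

/-- a contraction: a matrix `F` of degree `-1` with `e F + F e = 1` -/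
structure Contr (F : Matrix ι ι k) : Prop where
  deg : ∀ i j, F i j ≠ 0 → d.deg i = d.deg j + 1
  eF : d.e * F + F * d.e = 1

/-- the matrix over `K` -/
def fK (F : Matrix ι ι k) : Matrix ι ι K := F.map (algebraMap k K)

theorem fK_apply (F : Matrix ι ι k) (i j : ι) : fK (K := K) F i j = algebraMap k K (F i j) := rfl

theorem fK_mul (F G : Matrix ι ι k) : fK (K := K) (F * G) = fK F * fK G := Matrix.map_mul (f := algebraMap k K)

variable {d}

theorem Contr.gr {F : Matrix ι ι k} (h : d.Contr F) : fK (K := K) F ∈ d.grM (-1) := by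
  intro i j hij
  rw [fK_apply]
  by_cases h0 : F i j = 0
  · rw [h0, map_zero]
  · exact absurd (by rw [h.deg i j h0]; ring) hij

theorem Contr.dM_one {F : Matrix ι ι k} (h : d.Contr F) : d.dM (fK (K := K) F) = 1 := by
  have h1 : d.eK = fK (K := K) d.e := rfl
  have hodd : ¬ Even (-1 : ℤ) := by decide
  rw [dM_apply, d.eM_gr h.gr, if_neg hodd, neg_mul, sub_neg_eq_add, h1, ← fK_mul, ← fK_mul]
  have h2 : fK (K := K) (d.e * F) + fK (F * d.e) = fK (d.e * F + F * d.e) := by
    ext i j
    rw [Matrix.add_apply, fK_apply, fK_apply, fK_apply, Matrix.add_apply, map_add]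
  rw [h2, h.eF]
  ext i j
  rw [fK_apply, Matrix.one_apply, Matrix.one_apply]
  split_ifs
  · exact map_one _
  · exact map_zero _

variable (d)

/-- the vanishing of the supertraces of `F a_0 ⋯ F a_n` -/
structure Van (F : Matrix ι ι k) (lam : K →ₗ[k] k) where
  /-- the submodules which contain the entries of the products -/
  T : ι → ι → Submodule k K
  T_mul : ∀ i j l x y, x ∈ T i j → y ∈ T j l → x * y ∈ T i l
  F_S : ∀ i j l x, F i j ≠ 0 → x ∈ d.S j l → x ∈ T i l
  lam_T : ∀ i x, x ∈ T i i → lam x = 0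

variable {d}

theorem Van.mem {F : Matrix ι ι k} {lam : K →ₗ[k] k} (V : d.Van F lam) {x : Matrix ι ι K} (hx : x ∈ d.mats) (i l : ι) :
    (fK (K := K) F * x : Matrix ι ι K) i l ∈ V.T i l := by
  rw [Matrix.mul_apply]
  refine Submodule.sum_mem _ fun j _ => ?_
  rw [fK_apply]
  by_cases h0 : F i j = 0
  · rw [h0, map_zero, zero_mul]
    exact Submodule.zero_mem _
  · rw [← Algebra.smul_def]
    exact Submodule.smul_mem _ _ (V.F_S i j l _ h0 (hx j l))

/-- the product `F a_0 ⋯ F a_n` -/
def fprod (F : Matrix ι ι K) : Matrix ι ι K → List (Matrix ι ι K) → Matrix ι ι K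
  | a, [] => F * a
  | a, b :: l => F * a * fprod F b l

theorem Van.fprod_mem {F : Matrix ι ι k} {lam : K →ₗ[k] k} (V : d.Van F lam) (l : List (Matrix ι ι K)) :
    ∀ a : Matrix ι ι K, a ∈ d.mats → (∀ b ∈ l, b ∈ d.mats) → ∀ i j, fprod (fK F) a l i j ∈ V.T i j := by
  induction l with
  | nil => exact fun a ha _ i j => V.mem ha i j
  | cons b l ih =>
    intro a ha hl i j
    rw [fprod, Matrix.mul_apply]
    refine Submodule.sum_mem _ fun m _ => ?_
    exact V.T_mul _ _ _ _ _ (V.mem ha i m) (ih b (hl b List.mem_cons_self) (fun c hc => hl c (List.mem_cons_of_mem b hc)) m j)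

theorem Van.str {F : Matrix ι ι k} {lam : K →ₗ[k] k} (V : d.Van F lam) {y : Matrix ι ι K} (hy : ∀ i j, y i j ∈ V.T i j) :
    lam (d.strK y) = 0 := by
  rw [strK_apply, map_sum]
  refine Finset.sum_eq_zero fun i _ => ?_
  unfold sg
  split_ifs
  · rw [one_mul]
    exact V.lam_T i _ (hy i i)
  · rw [neg_one_mul, map_neg, V.lam_T i _ (hy i i), neg_zero]

theorem Van.fprod_zero {F : Matrix ι ι k} {lam : K →ₗ[k] k} (V : d.Van F lam) (a : Matrix ι ι K) (l : List (Matrix ι ι K))
    (ha : a ∈ d.mats) (hl : ∀ b ∈ l, b ∈ d.mats) : lam (d.strK (fprod (fK F) a l)) = 0 :=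
  V.str (V.fprod_mem l a ha hl)

end MatDat

/-- the inclusion in all matrices -/
def topHom (d : MatDat k K ι) : ZHom (matZ d) (matZ d.top) where
  f := Submodule.inclusion d.mats_le_top
  mul _ _ := rfl
  D _ := rfl
  gr _ _ h := h

theorem topHom_mv (d : MatDat k K ι) (x : (matZ d).V) : mv d.top ((topHom d).f x) = mv d x := rfl

end EK
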